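import Mathlib

/-!
# Wigner's theorem for pairings (piece TK9)
-/

set_option autoImplicit false

namespace PR

open ContinuousLinearMap

namespace WG

section basic

variable {E : Type*} [AddCommGroup E] [Module ℂ E]

/-- linear independence of two vectors -/
def I2 (x y : E) : Prop := ∀ α β : ℂ, α • x + β • y = 0 → α = 0 ∧ β = 0

/-- linear independence of three vectors -/
def I3 (x y z : E) : Prop := ∀ α β γ : ℂ, α • x + β • y + γ • z = 0 → α = 0 ∧ β = 0 ∧ γ = 0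

lemma I2.symm {x y : E} (h : I2 x y) : I2 y x := fun α β hh =>
  (h β α (by rw [add_comm]; exact hh)).symm

lemma I2.left_ne {x y : E} (h : I2 x y) : x ≠ 0 := by
  rintro rfl
  exact one_ne_zero (h 1 0 (by simp)).1

lemma I2.right_ne {x y : E} (h : I2 x y) : y ≠ 0 := h.symm.left_ne

lemma I2.ne_smul {x y : E} (h : I2 x y) (c : ℂ) : y ≠ c • x := by
  intro h1
  exact one_ne_zero (h (-c) 1 (by rw [h1]; module)).2

lemma I2.of_ne {x y : E} (hx : x ≠ 0) (h : ∀ c : ℂ, y ≠ c • x) : I2 x y := by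
  intro α β hh
  have hβ : β = 0 := by
    by_contra hβ
    apply h (-(β⁻¹ * α))
    have h2 : y = β⁻¹ • (β • y) := by rw [smul_smul, inv_mul_cancel₀ hβ, one_smul]
    rw [h2, eq_neg_of_add_eq_zero_right hh]
    module
  rw [hβ, zero_smul, add_zero] at hh
  exact ⟨(smul_eq_zero.1 hh).resolve_right hx, hβ⟩

lemma I2.exists_smul {x y : E} (hx : x ≠ 0) (h : ¬ I2 x y) : ∃ c : ℂ, y = c • x := by
  by_contra h1
  push Not at h1
  exact h (I2.of_ne hx h1)

lemma I3.swap {x y z : E} (h : I3 x y z) : I3 x z y := fun α β γ hh => by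
  obtain ⟨h1, h2, h3⟩ := h α γ β (by rw [← hh]; abel)
  exact ⟨h1, h3, h2⟩

/-- equality up to a phase -/
def Ph (u u' : E) : Prop := ∃ θ : ℂ, ‖θ‖ = 1 ∧ u = θ • u'

lemma Ph.refl (u : E) : Ph u u := ⟨1, by simp, by simp⟩

lemma norm_one_ne {θ : ℂ} (h : ‖θ‖ = 1) : θ ≠ 0 := by
  rintro rfl
  simp at h

lemma Ph.symm {u u' : E} (h : Ph u u') : Ph u' u := by
  obtain ⟨θ, h1, h2⟩ := h
  refine ⟨θ⁻¹, by rw [norm_inv, h1, inv_one], ?_⟩
  rw [h2, smul_smul, inv_mul_cancel₀ (norm_one_ne h1), one_smul]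

lemma Ph.trans {u u' u'' : E} (h : Ph u u') (h' : Ph u' u'') : Ph u u'' := by
  obtain ⟨θ, h1, h2⟩ := h
  obtain ⟨θ', h3, h4⟩ := h'
  exact ⟨θ * θ', by rw [norm_mul, h1, h3, one_mul], by rw [h2, h4, smul_smul]⟩

lemma Ph.smul {u u' : E} (h : Ph u u') (c : ℂ) : Ph (c • u) (c • u') := by
  obtain ⟨θ, h1, h2⟩ := h
  exact ⟨θ, h1, by rw [h2, smul_smul, smul_smul, mul_comm]⟩

lemma Ph.of_norm {a b : ℂ} (h : ‖a‖ = ‖b‖) (u : E) : Ph (a • u) (b • u) := by
  rcases eq_or_ne b 0 with rfl | hb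
  · have : a = 0 := by
      rw [norm_zero] at h
      exact norm_eq_zero.1 h
    rw [this]
    exact Ph.refl _
  · refine ⟨a / b, by rw [norm_div, h, div_self (norm_ne_zero_iff.2 hb)], ?_⟩
    rw [smul_smul, div_mul_cancel₀ _ hb]

lemma Ph.of_smul {a : ℂ} (h : ‖a‖ = 1) (u : E) : Ph (a • u) u := ⟨a, h, rfl⟩

end basic

section hb

variable {W : Type*} [NormedAddCommGroup W] [NormedSpace ℂ W]

lemma exists_zero_one {u z : W} (h : I2 u z) : ∃ g : W →L[ℂ] ℂ, g u = 0 ∧ g z = 1 := by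
  obtain ⟨g1, hg1⟩ := SeparatingDual.exists_eq_one (R := ℂ) h.left_ne
  have hz : z - g1 z • u ≠ 0 := sub_ne_zero.2 (h.ne_smul _)
  obtain ⟨g2, hg2⟩ := SeparatingDual.exists_eq_one (R := ℂ) hz
  refine ⟨g2 - (g2 u) • g1, ?_, ?_⟩
  · simp [hg1]
  · rw [map_sub, map_smul, smul_eq_mul] at hg2
    simp only [sub_apply, smul_apply, smul_eq_mul]
    rw [← hg2]
    ring

lemma exists_two {u z : W} (h : I2 u z) (α β : ℂ) : ∃ g : W →L[ℂ] ℂ, g u = α ∧ g z = β := by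
  obtain ⟨g1, h1, h2⟩ := exists_zero_one h
  obtain ⟨g2, h3, h4⟩ := exists_zero_one h.symm
  exact ⟨α • g2 + β • g1, by simp [h1, h4], by simp [h2, h3]⟩

lemma parallel {u z : W} (h : ∀ g : W →L[ℂ] ℂ, g u = 0 → g z = 0) : ∃ c : ℂ, z = c • u := by
  rcases eq_or_ne u 0 with rfl | hu
  · refine ⟨0, ?_⟩
    rw [smul_zero]
    exact SeparatingDual.eq_zero_of_forall_dual_eq_zero (R := ℂ) fun g => h g (map_zero g)
  · apply I2.exists_smul hu
    intro h2
    obtain ⟨g, h3, h4⟩ := exists_zero_one h2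
    rw [h g h3] at h4
    exact zero_ne_one h4

end hb

section main

variable {V W : Type*} [AddCommGroup V] [Module ℂ V] [NormedAddCommGroup W] [NormedSpace ℂ W]
  (π : V → W)

/-- the hypothesis of the theorem -/
def Hyp : Prop := ∀ (g : W →L[ℂ] ℂ) (v w : V), ∃ a b : ℂ, ‖g (π v)‖ = ‖a‖ ∧ ‖g (π w)‖ = ‖b‖ ∧
      ∀ s : ℂ, ‖g (π (v + s • w))‖ = ‖a + s * b‖

variable {π}

lemma Hyp.zero (h : Hyp π) : π 0 = 0 := by
  refine SeparatingDual.eq_zero_of_forall_dual_eq_zero (R := ℂ) fun g => ?_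
  obtain ⟨a, b, h1, h2, h3⟩ := h g 0 0
  have h4 : ‖b‖ = 0 := by
    by_contra hb
    have hb' : b ≠ 0 := norm_ne_zero_iff.1 hb
    have h5 := h3 (-a / b)
    rw [smul_zero, add_zero, div_mul_cancel₀ _ hb', add_neg_cancel, norm_zero] at h5
    rw [h5] at h2
    exact hb h2.symm
  rw [h4] at h2
  exact norm_eq_zero.1 h2

lemma Hyp.smul (h : Hyp π) (h0 : ∀ v, v ≠ 0 → π v ≠ 0) (s : ℂ) (v : V) :
    Ph (π (s • v)) (s • π v) := by
  have h1 : ∀ g : W →L[ℂ] ℂ, ‖g (π (s • v))‖ = ‖s‖ * ‖g (π v)‖ := by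
    intro g
    obtain ⟨a, b, h1, h2, h3⟩ := h g 0 v
    rw [h.zero, map_zero, norm_zero] at h1
    have ha : a = 0 := norm_eq_zero.1 h1.symm
    have h4 := h3 s
    rw [zero_add, ha, zero_add, norm_mul] at h4
    rw [h4, h2]
  obtain ⟨c, hc⟩ := parallel (u := π v) (z := π (s • v)) fun g hg => by
    have := h1 g
    rw [hg, norm_zero, mul_zero] at this
    exact norm_eq_zero.1 this
  rcases eq_or_ne v 0 with rfl | hv
  · rw [smul_zero, h.zero, smul_zero]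
    exact Ph.refl _
  · obtain ⟨g, hg⟩ := SeparatingDual.exists_eq_one (R := ℂ) (h0 v hv)
    have h2 := h1 g
    rw [hc, map_smul, hg, smul_eq_mul, mul_one, norm_one, mul_one] at h2
    rw [hc]
    exact Ph.of_norm h2 _

lemma Hyp.i2 (h : Hyp π) (h0 : ∀ v, v ≠ 0 → π v ≠ 0) {v w : V} (hvw : I2 v w) :
    I2 (π v) (π w) := by
  apply I2.of_ne (h0 v hvw.left_ne)
  intro μ hμ
  have hπv := h0 v hvw.left_ne
  have hπw := h0 w hvw.right_ne
  obtain ⟨g, hg⟩ := SeparatingDual.exists_eq_one (R := ℂ) hπv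
  obtain ⟨a, b, h1, h2, h3⟩ := h g v w
  have hμ0 : μ ≠ 0 := by
    rintro rfl
    exact hπw (by rw [hμ, zero_smul])
  have hb : b ≠ 0 := by
    rw [hμ, map_smul, hg, smul_eq_mul, mul_one] at h2
    exact norm_ne_zero_iff.1 (by rw [← h2]; exact norm_ne_zero_iff.2 hμ0)
  have h4 := h3 (-a / b)
  rw [div_mul_cancel₀ _ hb, add_neg_cancel, norm_zero] at h4
  obtain ⟨c, hc⟩ := parallel (u := π v) (z := π (v + (-a / b) • w)) fun g' hg' => by
    obtain ⟨a', b', h5, h6, h7⟩ := h g' v w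
    rw [hg', norm_zero] at h5
    rw [hμ, map_smul, hg', smul_zero, norm_zero] at h6
    have h8 := h7 (-a / b)
    rw [norm_eq_zero.1 h5.symm, norm_eq_zero.1 h6.symm, mul_zero, add_zero, norm_zero] at h8
    exact norm_eq_zero.1 h8
  have hc0 : c = 0 := by
    rw [hc, map_smul, hg, smul_eq_mul, mul_one] at h4
    exact norm_eq_zero.1 h4
  rw [hc0, zero_smul] at hc
  have h5 : v + (-a / b) • w = 0 := by
    by_contra h5
    exact h0 _ h5 hc
  exact one_ne_zero (hvw 1 (-a / b) (by rw [one_smul]; exact h5)).1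

/-- the two types of scalars -/
def Ty (σ : ℂ →+* ℂ) : Prop := σ = RingHom.id ℂ ∨ σ = starRingEnd ℂ

lemma Ty.norm {σ : ℂ →+* ℂ} (h : Ty σ) (s : ℂ) : ‖σ s‖ = ‖s‖ := by
  rcases h with rfl | rfl
  · rfl
  · exact RCLike.norm_conj s

lemma Ty.invol {σ : ℂ →+* ℂ} (h : Ty σ) (s : ℂ) : σ (σ s) = s := by
  rcases h with rfl | rfl
  · rfl
  · exact Complex.conj_conj s

/-- the plane statement -/
def Plane (π : V → W) : Prop := ∀ v w, I2 v w → ∃ κ : ℂ, ‖κ‖ = 1 ∧ ∃ σ : ℂ →+* ℂ, Ty σ ∧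
  ∀ s, Ph (π (v + s • w)) (π v + (κ * σ s) • π w)

lemma i3 (h : Hyp π) (h0 : ∀ v, v ≠ 0 → π v ≠ 0) (hP : Plane π) {e x y : V} (hi : I3 e x y) :
    I3 (π e) (π x) (π y) := by
  have hex : I2 e x := fun α β hh => by
    obtain ⟨h1, h2, -⟩ := hi α β 0 (by rw [hh]; simp)
    exact ⟨h1, h2⟩
  have hxy : I2 x y := fun α β hh => by
    obtain ⟨-, h1, h2⟩ := hi 0 α β (by rw [zero_smul, zero_add, hh])
    exact ⟨h1, h2⟩
  intro α β γ hh
  rcases eq_or_ne γ 0 with hγ | hγ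
  · rw [hγ, zero_smul, add_zero] at hh
    obtain ⟨h1, h2⟩ := h.i2 h0 hex α β hh
    exact ⟨h1, h2, hγ⟩
  · exfalso
    have hy : π y = (-(γ⁻¹ * α)) • π e + (-(γ⁻¹ * β)) • π x := by
      have h2 : π y = γ⁻¹ • (γ • π y) := by rw [smul_smul, inv_mul_cancel₀ hγ, one_smul]
      rw [h2, eq_neg_of_add_eq_zero_right hh]
      module
    set α' := -(γ⁻¹ * α)
    set β' := -(γ⁻¹ * β)
    have hα : α' ≠ 0 := by
      intro h1
      rw [h1, zero_smul, zero_add] at hy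
      exact (h.i2 h0 hxy).ne_smul _ hy
    obtain ⟨κ, hκ, σ, hσ, hs⟩ := hP e x hex
    have hκ0 := norm_one_ne hκ
    obtain ⟨θ, hθ, h1⟩ := hs (σ (β' / (α' * κ)))
    rw [hσ.invol] at h1
    have h2 : π e + (κ * (β' / (α' * κ))) • π x = α'⁻¹ • π y := by
      rw [hy, smul_add, smul_smul, smul_smul, inv_mul_cancel₀ hα, one_smul]
      congr 2
      field_simp
    rw [h2, smul_smul] at h1
    have hi2 : I2 y (e + σ (β' / (α' * κ)) • x) := fun a b hab => by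
      obtain ⟨h3, -, h4⟩ := hi b (b * σ (β' / (α' * κ))) a (by rw [← hab]; module)
      exact ⟨h4, h3⟩
    exact (h.i2 h0 hi2).ne_smul _ h1

/-- uniqueness of the phase -/
lemma uniq (h : Hyp π) (h0 : ∀ v, v ≠ 0 → π v ≠ 0) {e x : V} (hex : x = 0 ∨ I2 e x)
    {u u' z : W} (hu : Ph u (π x)) (hu' : Ph u' (π x)) (hz : Ph z (π e + u))
    (hz' : Ph z (π e + u')) : u = u' := by
  obtain ⟨θ₁, h1, rfl⟩ := hu
  obtain ⟨θ₂, h2, rfl⟩ := hu'
  rcases hex with rfl | hex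
  · rw [h.zero, smul_zero, smul_zero]
  · obtain ⟨θ₃, h3, hz⟩ := hz
    obtain ⟨θ₄, h4, hz'⟩ := hz'
    obtain ⟨h5, h6⟩ := h.i2 h0 hex (θ₃ - θ₄) (θ₃ * θ₁ - θ₄ * θ₂) (by
      have h7 := hz.symm.trans hz'
      rw [← sub_eq_zero] at h7
      rw [← h7]
      module)
    rw [sub_eq_zero] at h5 h6
    rw [← h5] at h6
    rw [mul_left_cancel₀ (norm_one_ne h3) h6]

/-- the semilinear map -/
theorem assemble (h : Hyp π) (h0 : ∀ v, v ≠ 0 → π v ≠ 0) (hP : Plane π) {e : V} (he : e ≠ 0) :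
    ∃ σ : ℂ →+* ℂ, Ty σ ∧ ∃ A : V → W, (∀ v w, A (v + w) = A v + A w) ∧
      (∀ (s : ℂ) (v : V), A (s • v) = σ s • A v) ∧ ∀ v, Ph (π v) (A v) := by
  classical
  obtain ⟨ℓ₀, hℓ₀⟩ := Module.Projective.exists_dual_ne_zero ℂ he
  set ℓ : V →ₗ[ℂ] ℂ := (ℓ₀ e)⁻¹ • ℓ₀ with hℓdef
  have hℓe : ℓ e = 1 := by
    rw [hℓdef, LinearMap.smul_apply, smul_eq_mul, inv_mul_cancel₀ hℓ₀]
  have hex : ∀ x, ℓ x = 0 → x = 0 ∨ I2 e x := by
    intro x hx
    rcases eq_or_ne x 0 with h1 | h1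
    · exact Or.inl h1
    · right
      intro α β hh
      have h2 := congrArg ℓ hh
      rw [map_add, map_smul, map_smul, hℓe, hx, smul_zero, add_zero, smul_eq_mul, mul_one,
        map_zero] at h2
      rw [h2, zero_smul, zero_add] at hh
      exact ⟨h2, (smul_eq_zero.1 hh).resolve_right h1⟩
  have hex3 : ∀ x y, ℓ x = 0 → ℓ y = 0 → I2 x y → I3 e x y := by
    intro x y hx hy hxy α β γ hh
    have h2 := congrArg ℓ hh
    rw [map_add, map_add, map_smul, map_smul, map_smul, hℓe, hx, hy, smul_zero, add_zero,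
      smul_zero, add_zero, smul_eq_mul, mul_one, map_zero] at h2
    rw [h2, zero_smul, zero_add] at hh
    exact ⟨h2, hxy β γ hh⟩
  have hkey : ∀ x, ℓ x = 0 → ∃ u, Ph u (π x) ∧ Ph (π (e + x)) (π e + u) := by
    intro x hx
    rcases hex x hx with rfl | hi
    · exact ⟨0, by rw [h.zero]; exact Ph.refl _, by rw [add_zero, add_zero]; exact Ph.refl _⟩
    · obtain ⟨κ, hκ, σ, hσ, hs⟩ := hP e x hi
      refine ⟨κ • π x, Ph.of_smul hκ _, ?_⟩
      have := hs 1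
      rwa [one_smul, map_one, mul_one] at this
  choose! a ha using hkey
  -- lines
  have hline : ∀ x, ℓ x = 0 → ∃ σ : ℂ →+* ℂ, Ty σ ∧ ∀ s : ℂ, a (s • x) = σ s • a x := by
    intro x hx
    have hsx : ∀ s : ℂ, ℓ (s • x) = 0 := fun s => by rw [map_smul, hx, smul_zero]
    rcases hex x hx with rfl | hi
    · refine ⟨RingHom.id ℂ, Or.inl rfl, fun s => ?_⟩
      have h1 : a 0 = 0 := by
        obtain ⟨θ, -, h2⟩ := (ha 0 hx).1
        rw [h2, h.zero, smul_zero]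
      rw [smul_zero, h1, smul_zero]
    · obtain ⟨κ, hκ, σ, hσ, hs⟩ := hP e x hi
      have h1 : ∀ s : ℂ, a (s • x) = (κ * σ s) • π x := by
        intro s
        refine uniq h h0 (hex _ (hsx s)) (ha _ (hsx s)).1 ?_ (ha _ (hsx s)).2 (hs s)
        have h2 : Ph ((κ * σ s) • π x) (s • π x) :=
          Ph.of_norm (by rw [norm_mul, hκ, hσ.norm, one_mul]) _
        exact h2.trans (h.smul h0 s x).symm
      refine ⟨σ, hσ, fun s => ?_⟩
      have h2 := h1 1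
      rw [one_smul, map_one, mul_one] at h2
      rw [h1 s, h2, smul_smul, mul_comm]
  -- additivity on independent vectors
  have hadd2 : ∀ x y, ℓ x = 0 → ℓ y = 0 → I2 x y → a (x + y) = a x + a y := by
    intro x y hx hy hxy
    have hxy0 : ℓ (x + y) = 0 := by rw [map_add, hx, hy, add_zero]
    have hi := hex3 x y hx hy hxy
    have hI := i3 h h0 hP hi
    obtain ⟨m₁, hm₁, h1⟩ := (ha x hx).1
    obtain ⟨m₂, hm₂, h2⟩ := (ha y hy).1
    -- first
    obtain ⟨κ, hκ, σ, hσ, hs⟩ := hP x y hxy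
    have h3 := hs 1
    rw [one_smul, map_one, mul_one] at h3
    obtain ⟨θ, hθ, h4⟩ := (ha _ hxy0).1.trans h3
    obtain ⟨t₁, ht₁, h5⟩ := (ha _ hxy0).2
    rw [h4] at h5
    -- second
    have hi2 : I2 (e + x) y := fun α β hh => by
      obtain ⟨h6, -, h7⟩ := hi α α β (by rw [← hh]; module)
      exact ⟨h6, h7⟩
    obtain ⟨κ₂, hκ₂, σ₂, hσ₂, hs₂⟩ := hP _ _ hi2
    obtain ⟨t₂, ht₂, h6⟩ := hs₂ 1
    obtain ⟨r₂, hr₂, h7⟩ := (ha x hx).2
    rw [one_smul, map_one, mul_one, h7, h1] at h6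
    -- third
    have hi3 : I2 (e + y) x := fun α β hh => by
      obtain ⟨h8, h9, -⟩ := hi α β α (by rw [← hh]; module)
      exact ⟨h8, h9⟩
    obtain ⟨κ₃, hκ₃, σ₃, hσ₃, hs₃⟩ := hP _ _ hi3
    obtain ⟨t₃, ht₃, h8⟩ := hs₃ 1
    obtain ⟨r₃, hr₃, h9⟩ := (ha y hy).2
    rw [one_smul, map_one, mul_one, h9, h2] at h8
    have e1 : e + x + y = e + (x + y) := by abel
    have e2 : e + y + x = e + (x + y) := by abel
    rw [e1] at h6
    rw [e2] at h8
    obtain ⟨c1, c2, c3⟩ := hI (t₁ - t₂ * r₂) (t₁ * θ - t₂ * r₂ * m₁) (t₁ * θ * κ - t₂ * κ₂) (by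
      have h10 := h5.symm.trans h6
      rw [← sub_eq_zero] at h10
      rw [← h10]
      module)
    obtain ⟨d1, d2, d3⟩ := hI (t₁ - t₃ * r₃) (t₁ * θ - t₃ * κ₃) (t₁ * θ * κ - t₃ * r₃ * m₂) (by
      have h10 := h5.symm.trans h8
      rw [← sub_eq_zero] at h10
      rw [← h10]
      module)
    have ht₁0 := norm_one_ne ht₁
    have e3 : θ = m₁ := by
      apply mul_left_cancel₀ ht₁0
      linear_combination c2 - m₁ * c1
    have e4 : θ * κ = m₂ := by
      apply mul_left_cancel₀ ht₁0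
      linear_combination d3 - m₂ * d1
    rw [h4, h1, h2, smul_add, smul_smul, e4, e3]
  have ha0 : a 0 = 0 := by
    obtain ⟨θ, -, h2⟩ := (ha 0 (map_zero ℓ)).1
    rw [h2, h.zero, smul_zero]
  -- additivity
  have hadd : ∀ x y, ℓ x = 0 → ℓ y = 0 → a (x + y) = a x + a y := by
    intro x y hx hy
    rcases eq_or_ne x 0 with rfl | hx0
    · rw [zero_add, ha0, zero_add]
    · by_cases hi : I2 x y
      · exact hadd2 x y hx hy hi
      · obtain ⟨c, rfl⟩ := I2.exists_smul hx0 hi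
        obtain ⟨σ, -, hs⟩ := hline x hx
        have h1 : x + c • x = (1 + c) • x := by rw [add_smul, one_smul]
        rw [h1, hs, hs, map_add, map_one, add_smul, one_smul]
  -- one type for all
  have htype : ∃ σ : ℂ →+* ℂ, Ty σ ∧ ∀ x, ℓ x = 0 → ∀ s : ℂ, a (s • x) = σ s • a x := by
    by_cases hid : ∀ x, ℓ x = 0 → ∀ s : ℂ, a (s • x) = s • a x
    · exact ⟨RingHom.id ℂ, Or.inl rfl, fun x hx s => hid x hx s⟩
    · push Not at hid
      obtain ⟨x₀, hx₀, s₀, hs₀⟩ := hid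
      have hx0 : x₀ ≠ 0 := by
        rintro rfl
        exact hs₀ (by rw [smul_zero, ha0, smul_zero])
      obtain ⟨σ₀, hσ₀, hσs₀⟩ := hline x₀ hx₀
      have hconj : σ₀ = starRingEnd ℂ := by
        rcases hσ₀ with rfl | h1
        · exact absurd (hσs₀ s₀) hs₀
        · exact h1
      refine ⟨starRingEnd ℂ, Or.inr rfl, fun x hx s => ?_⟩
      by_cases hi : I2 x₀ x
      · obtain ⟨σ, hσ, hσs⟩ := hline x hx
        obtain ⟨τ, hτ, hτs⟩ := hline (x₀ + x) (by rw [map_add, hx₀, hx, add_zero])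
        have h1 := hτs s
        rw [smul_add, hadd _ _ (by rw [map_smul, hx₀, smul_zero]) (by rw [map_smul, hx, smul_zero]),
          hadd _ _ hx₀ hx, hσs₀, hσs, hconj] at h1
        obtain ⟨m₁, hm₁, h2⟩ := (ha x₀ hx₀).1
        obtain ⟨m₂, hm₂, h3⟩ := (ha x hx).1
        rw [h2, h3] at h1
        obtain ⟨h4, h5⟩ := h.i2 h0 hi ((starRingEnd ℂ s - τ s) * m₁) ((σ s - τ s) * m₂) (by
          rw [← sub_eq_zero] at h1
          rw [← h1]
          module)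
        have h6 := (mul_eq_zero.1 h4).resolve_right (norm_one_ne hm₁)
        have h7 := (mul_eq_zero.1 h5).resolve_right (norm_one_ne hm₂)
        rw [hσs]
        congr 1
        linear_combination h7 - h6
      · obtain ⟨c, rfl⟩ := I2.exists_smul hx0 hi
        rw [smul_smul, hσs₀, hσs₀, hconj, map_mul, smul_smul]
  obtain ⟨σ, hσ, hσs⟩ := htype
  have hker : ∀ v, ℓ (v - ℓ v • e) = 0 := by
    intro v
    rw [map_sub, map_smul, hℓe, smul_eq_mul, mul_one, sub_self]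
  refine ⟨σ, hσ, fun v => σ (ℓ v) • π e + a (v - ℓ v • e), ?_, ?_, ?_⟩
  · intro v w
    have h1 : v + w - ℓ (v + w) • e = (v - ℓ v • e) + (w - ℓ w • e) := by
      rw [map_add]; module
    simp only
    rw [h1, hadd _ _ (hker v) (hker w), map_add, map_add]
    module
  · intro s v
    have h1 : s • v - ℓ (s • v) • e = s • (v - ℓ v • e) := by
      rw [map_smul, smul_eq_mul]; module
    simp only
    rw [h1, hσs _ (hker v), map_smul, smul_eq_mul, map_mul]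
    module
  · intro v
    simp only
    set x := v - ℓ v • e with hx
    have hxk : ℓ x = 0 := hker v
    have hv : v = ℓ v • e + x := by rw [hx]; module
    rcases eq_or_ne (ℓ v) 0 with h1 | h1
    · rw [h1, map_zero, zero_smul, zero_add]
      rw [h1, zero_smul, zero_add] at hv
      rw [hv]
      exact (ha x hxk).1.symm
    · have h2 : v = ℓ v • (e + (ℓ v)⁻¹ • x) := by
        rw [smul_add, smul_smul, mul_inv_cancel₀ h1, one_smul]
        exact hv
      have h3 : Ph (π v) (ℓ v • π (e + (ℓ v)⁻¹ • x)) := by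
        conv_lhs => rw [h2]
        exact h.smul h0 _ _
      have h4 := (ha ((ℓ v)⁻¹ • x) (by rw [map_smul, hxk, smul_zero])).2
      rw [hσs x hxk] at h4
      have h5 : σ (ℓ v) ≠ 0 := by
        rw [← norm_ne_zero_iff, hσ.norm]
        exact norm_ne_zero_iff.2 h1
      have h6 : σ (ℓ v) • π e + a x = σ (ℓ v) • (π e + σ (ℓ v)⁻¹ • a x) := by
        rw [smul_add, smul_smul, ← map_mul, mul_inv_cancel₀ h1, map_one, one_smul]
      rw [h6]
      exact (h3.trans (h4.smul _)).trans (Ph.of_norm (hσ.norm _).symm _)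

/-- conclusion -/
theorem conclude (h : Hyp π) (h0 : ∀ v, v ≠ 0 → π v ≠ 0) (hP : Plane π) {e : V} (he : e ≠ 0) :
    (∃ A : V →ₗ[ℂ] W, ∀ v, ∃ θ : ℂ, ‖θ‖ = 1 ∧ π v = θ • A v) ∨
    (∃ A : V →ₛₗ[starRingEnd ℂ] W, ∀ v, ∃ θ : ℂ, ‖θ‖ = 1 ∧ π v = θ • A v) := by
  obtain ⟨σ, hσ, A, h1, h2, h3⟩ := assemble h h0 hP he
  rcases hσ with rfl | rfl
  · exact Or.inl ⟨{ toFun := A, map_add' := h1, map_smul' := h2 }, h3⟩
  · exact Or.inr ⟨{ toFun := A, map_add' := h1, map_smul' := h2 }, h3⟩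

end main

end WG

end PR
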