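import Mathlib
import Pool.Agent.Helper43.PR.TK9Core
import Pool.Agent.Helper73.PR.TK8

/-!
# Wigner's theorem for pairings (piece TK9)
-/

set_option autoImplicit false

namespace PR

namespace WG

variable {V W : Type*} [AddCommGroup V] [Module ℂ V] [NormedAddCommGroup W] [NormedSpace ℂ W]
  {π : V → W}

/-- evaluation functionals -/
noncomputable def evalAt (u : W) : (W →L[ℂ] ℂ) →ₗ[ℂ] ℂ :=
  { toFun := fun g => g u
    map_add' := fun _ _ => rfl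
    map_smul' := fun _ _ => rfl }

theorem plane_of (h : Hyp π) (h0 : ∀ v, v ≠ 0 → π v ≠ 0) : Plane π := by
  intro v w hvw
  obtain ⟨κ, hκ, h1⟩ := wigner_two (evalAt (π v)) (evalAt (π w))
    (fun s => evalAt (π (v + s • w))) (fun α β => exists_two (h.i2 h0 hvw) α β)
    (fun g => h g v w)
  have key : ∀ (s p c : ℂ), evalAt (π (v + s • w)) = p • (evalAt (π v) + c • evalAt (π w)) →
      π (v + s • w) = p • (π v + c • π w) := by
    intro s p c hs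
    rw [SeparatingDual.eq_iff_forall_dual_eq (R := ℂ)]
    intro g
    have h2 := congrArg (fun f : (W →L[ℂ] ℂ) →ₗ[ℂ] ℂ => f g) hs
    rw [map_smul, map_add, map_smul]
    exact h2
  rcases h1 with h1 | h1
  · refine ⟨κ, hκ, RingHom.id ℂ, Or.inl rfl, fun s => ?_⟩
    obtain ⟨p, hp, h2⟩ := h1 s
    exact ⟨p, hp, key s p _ h2⟩
  · refine ⟨κ, hκ, starRingEnd ℂ, Or.inr rfl, fun s => ?_⟩
    obtain ⟨p, hp, h2⟩ := h1 s
    exact ⟨p, hp, key s p _ h2⟩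

end WG

/-- WG. Wigner's theorem for pairings. -/
theorem wigner_pairing {V W : Type*} [AddCommGroup V] [Module ℂ V]
    [NormedAddCommGroup W] [NormedSpace ℂ W] (π : V → W)
    (hV : ∃ v w : V, LinearIndependent ℂ ![v, w]) (h0 : ∀ v, v ≠ 0 → π v ≠ 0)
    (h : ∀ (g : W →L[ℂ] ℂ) (v w : V), ∃ a b : ℂ, ‖g (π v)‖ = ‖a‖ ∧ ‖g (π w)‖ = ‖b‖ ∧
      ∀ s : ℂ, ‖g (π (v + s • w))‖ = ‖a + s * b‖) :
    (∃ A : V →ₗ[ℂ] W, ∀ v, ∃ θ : ℂ, ‖θ‖ = 1 ∧ π v = θ • A v) ∨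
    (∃ A : V →ₛₗ[starRingEnd ℂ] W, ∀ v, ∃ θ : ℂ, ‖θ‖ = 1 ∧ π v = θ • A v) := by
  obtain ⟨v, w, hvw⟩ := hV
  exact WG.conclude h h0 (WG.plane_of h h0) (hvw.ne_zero 0)

end PR
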