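import Pool.Agent.Helper28.PR.E1

/-! E10A: the first slot (MP_339e9c_an) -/

set_option autoImplicit false

namespace PR

open ContinuousLinearMap InnerProductSpace Complex

open scoped ComplexConjugate

section e

variable {H : Type*} [NormedAddCommGroup H] [InnerProductSpace ℂ H] [CompleteSpace H]

namespace E10Aux

/-- `b ↦ b + √(D + b ^ 2)` is injective on the nonnegative numbers. -/
theorem add_sqrt_inj {D a b : ℝ} (ha : 0 ≤ a) (hb : 0 ≤ b)
    (h : a + √(D + a ^ 2) = b + √(D + b ^ 2)) : a = b := by
  rcases lt_trichotomy a b with hab | hab | hab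
  · have : √(D + a ^ 2) ≤ √(D + b ^ 2) := Real.sqrt_le_sqrt (by nlinarith)
    linarith
  · exact hab
  · have : √(D + b ^ 2) ≤ √(D + a ^ 2) := Real.sqrt_le_sqrt (by nlinarith)
    linarith

/-- the operator `i (T - T†)` is self-adjoint -/
theorem sa_im (T : H →L[ℂ] H) : IsSelfAdjoint (I • (T - adjoint T)) := by
  rw [isSelfAdjoint_iff, star_smul, star_sub, star_eq_adjoint, star_eq_adjoint, adjoint_adjoint,
    ← neg_sub T, smul_neg, ← neg_smul]
  simp

theorem inner_im (T : H →L[ℂ] H) (x : H) :
    inner ℂ x ((I • (T - adjoint T)) x) = -2 * ((inner ℂ x (T x)).im : ℂ) := by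
  have h1 : inner ℂ x (adjoint T x) = conj (inner ℂ x (T x)) := by
    rw [adjoint_inner_right, inner_conj_symm]
  rw [smul_apply, sub_apply, inner_smul_right, inner_sub_right, h1]
  generalize inner ℂ x (T x) = z
  have h2 : z - conj z = 2 * (z.im : ℂ) * I := by
    apply Complex.ext
    · simp
    · simp
      ring
  rw [h2]
  linear_combination (2 * (z.im : ℂ)) * I_mul_I

/-- Two operators with the same tests, `‖T x‖ = ‖T' x‖` and `|⟪x, T x⟫| = |⟪x, T' x⟫|`. -/
theorem core {T T' : H →L[ℂ] H} (hn : ∀ x, ‖T x‖ = ‖T' x‖)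
    (hs : ∀ x, ‖inner ℂ x (T x)‖ = ‖inner ℂ x (T' x)‖)
    (h : ∀ S, sr (skb T' S) = sr (skb T S)) :
    T - adjoint T = T' - adjoint T' ∨ T - adjoint T = -(T' - adjoint T') := by
  have key : ∀ x : H, ‖x‖ = 1 →
      ‖inner ℂ x ((I • (T - adjoint T)) x)‖ = ‖inner ℂ x ((I • (T' - adjoint T')) x)‖ := by
    intro x hx
    have h1 := h (po x x)
    rw [e_test_P T hx, e_test_P T' hx] at h1
    have e1 : ‖T x‖ ^ 2 - (inner ℂ x (T x)).re ^ 2 =
        (‖T x‖ ^ 2 - ‖inner ℂ x (T x)‖ ^ 2) + |(inner ℂ x (T x)).im| ^ 2 := by
      rw [sq_abs, ← Complex.normSq_eq_norm_sq, Complex.normSq_apply]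
      ring
    have e2 : ‖T' x‖ ^ 2 - (inner ℂ x (T' x)).re ^ 2 =
        (‖T x‖ ^ 2 - ‖inner ℂ x (T x)‖ ^ 2) + |(inner ℂ x (T' x)).im| ^ 2 := by
      rw [sq_abs, hn x, hs x, ← Complex.normSq_eq_norm_sq, Complex.normSq_apply]
      ring
    rw [e1, e2] at h1
    have h2 := add_sqrt_inj (abs_nonneg _) (abs_nonneg _) h1
    rw [inner_im, inner_im, norm_mul, norm_mul, Complex.norm_real, Complex.norm_real,
      Real.norm_eq_abs, Real.norm_eq_abs, h2]
  rcases sa_pm (sa_im T) (sa_im T') key with h1 | h1
  · left
    exact smul_right_injective _ I_ne_zero h1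
  · right
    rw [← smul_neg] at h1
    exact smul_right_injective _ I_ne_zero h1

theorem conj_mul_self' {η : ℂ} (hη : ‖η‖ = 1) : conj η * η = 1 := by
  rw [← Complex.normSq_eq_conj_mul_self, Complex.normSq_eq_norm_sq, hη]
  simp

theorem norm_inner_adj (T : H →L[ℂ] H) (x : H) :
    ‖inner ℂ x (adjoint T x)‖ = ‖inner ℂ x (T x)‖ := by
  rw [adjoint_inner_right, norm_inner_symm]

theorem adj_smul (c : ℂ) (T : H →L[ℂ] H) : adjoint (c • T) = conj c • adjoint T := by
  rw [map_smulₛₗ]

end E10Aux

theorem first_slot_same {T : H →L[ℂ] H} {η : ℂ} (hη : ‖η‖ = 1)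
    (h : ∀ S, sr (skb (η • T) S) = sr (skb T S)) :
    η • T = T ∨ η • T = -T ∨ η • T = adjoint T ∨ η • T = -adjoint T := by
  have hc := E10Aux.conj_mul_self' hη
  rcases E10Aux.core (T := T) (T' := η • T)
    (fun x => by rw [smul_apply, norm_smul, hη, one_mul])
    (fun x => by rw [smul_apply, inner_smul_right, norm_mul, hη, one_mul]) h with h1 | h1
  · rw [E10Aux.adj_smul] at h1
    by_cases h2 : η = 1
    · left
      rw [h2, one_smul]
    · right; right; right
      have h3 : (η - 1) • (η • T) = (η - 1) • (-adjoint T) := by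
        have h4 : (η - 1) • T = (conj η - 1) • adjoint T := by
          linear_combination (norm := module) -h1
        have h5 : η * (conj η - 1) = -(η - 1) := by
          linear_combination hc
        rw [smul_comm, h4, smul_smul, h5, neg_smul, smul_neg]
      exact smul_right_injective _ (sub_ne_zero.2 h2) h3
  · rw [E10Aux.adj_smul] at h1
    by_cases h2 : η = -1
    · right; left
      rw [h2, neg_smul, one_smul]
    · right; right; left
      have h3 : (η + 1) • (η • T) = (η + 1) • adjoint T := by
        have h4 : (η + 1) • T = (conj η + 1) • adjoint T := by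
          linear_combination (norm := module) h1
        have h5 : η * (conj η + 1) = η + 1 := by
          linear_combination hc
        rw [smul_comm, h4, smul_smul, h5]
      refine smul_right_injective _ (fun h0 => h2 ?_) h3
      linear_combination h0

theorem first_slot_normal {T : H →L[ℂ] H} (hT : T * adjoint T = adjoint T * T) {η : ℂ}
    (hη : ‖η‖ = 1) (h : ∀ S, sr (skb (η • adjoint T) S) = sr (skb T S)) :
    η • adjoint T = T ∨ η • adjoint T = -T ∨ η • adjoint T = adjoint T ∨
      η • adjoint T = -adjoint T := by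
  have hc := E10Aux.conj_mul_self' hη
  have hnorm : ∀ x, ‖T x‖ = ‖adjoint T x‖ := by
    intro x
    have h1 : inner ℂ (T x) (T x) = inner ℂ (adjoint T x) (adjoint T x) := by
      rw [← adjoint_inner_right, adjoint_inner_left]
      have h2 : T (adjoint T x) = adjoint T (T x) :=
        congrArg (fun A : H →L[ℂ] H => A x) hT
      rw [h2]
    rw [inner_self_eq_norm_sq_to_K, inner_self_eq_norm_sq_to_K] at h1
    have h3 : ‖T x‖ ^ 2 = ‖adjoint T x‖ ^ 2 := by exact_mod_cast h1
    exact (pow_left_inj₀ (norm_nonneg _) (norm_nonneg _) two_ne_zero).1 h3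
  rcases E10Aux.core (T := T) (T' := η • adjoint T)
    (fun x => by rw [smul_apply, norm_smul, hη, one_mul, hnorm])
    (fun x => by rw [smul_apply, inner_smul_right, norm_mul, hη, one_mul, E10Aux.norm_inner_adj])
    h with h1 | h1
  · rw [E10Aux.adj_smul, adjoint_adjoint] at h1
    by_cases h2 : η = -1
    · right; right; right
      rw [h2, neg_smul, one_smul]
    · left
      have h3 : (conj η + 1) • (η • adjoint T) = (conj η + 1) • T := by
        have h4 : (conj η + 1) • T = (η + 1) • adjoint T := by
          linear_combination (norm := module) h1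
        have h5 : (conj η + 1) * η = η + 1 := by
          linear_combination hc
        rw [h4, smul_smul, h5]
      refine smul_right_injective _ (fun h0 => h2 ?_) h3
      have h6 := congrArg conj h0
      simp only [map_add, Complex.conj_conj, map_one, map_zero] at h6
      linear_combination h6
  · rw [E10Aux.adj_smul, adjoint_adjoint] at h1
    by_cases h2 : η = 1
    · right; right; left
      rw [h2, one_smul]
    · right; left
      have h3 : (conj η - 1) • (η • adjoint T) = (conj η - 1) • (-T) := by
        have h4 : (conj η - 1) • T = (η - 1) • adjoint T := by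
          linear_combination (norm := module) -h1
        have h5 : (conj η - 1) * η = -(η - 1) := by
          linear_combination hc
        rw [smul_neg, h4, smul_smul, h5, neg_smul]
      refine smul_right_injective _ (fun h0 => h2 ?_) h3
      have h6 := congrArg conj h0
      simp only [map_sub, Complex.conj_conj, map_one, map_zero] at h6
      linear_combination h6

end e

end PR
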